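import Pool.Agent.N883.DQ.Loc
import Pool.Agent.Y688.R2
import Pool.Agent.Y696.Hss
import Pool.Agent.Y696.Stm2

/-!
# The `L`-functions of the cubic Fermat hypersurfaces of dimensions one, three and five
-/

set_option autoImplicit false
set_option linter.unusedSectionVars false
set_option linter.unusedVariables false
set_option linter.style.haveILetI false

open NumberField IsDedekindDomain IsDedekindDomain.HeightOneSpectrum IsLocalRing
open scoped Classical

namespace Pool.Agent.L7h1.FC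

open Pool.Agent.W189.NF (aV eV aLoc eLoc redMap Ov finite_res card_res redMap_eq_zero mem_max_iff)
open Pool.Agent.H921R2.TatePole (nm two_le_nm)
open Pool.Agent.Y696 (TwoPart HBd LSeries_hasProd')
open Pool.Agent.Y688 (aV_good E27_map E27_Δ E27_c₄ NP val_all)
open Pool.Agent.N883.DQ (Cn Dt IsBeta exists_beta)

/-- The solutions, not all zero, of `∑ x i ^ 3 = 0` in the field `F`. -/
def sols (m : ℕ) (F : Type) [Field F] : Set (Fin m → F) :=
  {x | x ≠ 0 ∧ ∑ i, x i ^ 3 = 0}

/-- the eigenvalues of the Frobenius -/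
def IsFrob (n q : ℕ) (A : Multiset ℂ) : Prop :=
  ∀ (F : Type) [Field F] [Finite F] (r : ℕ), Nat.card F = q ^ r →
    ((sols (n + 2) F).ncard : ℂ) = (Nat.card F - 1) *
      (∑ i ∈ Finset.range (n + 1), (Nat.card F : ℂ) ^ i - (A.map (fun α => α ^ r)).sum)

/-- the `L`-function -/
def IsL (K : Type) [Field K] [NumberField K] (n b : ℕ) (L : ℂ → ℂ) : Prop :=
  MeromorphicOn L Set.univ ∧ ∃ A : HeightOneSpectrum (𝓞 K) → Multiset ℂ,
    (∀ v, (3 : 𝓞 K) ∉ v.asIdeal → IsFrob n (Ideal.absNorm v.asIdeal) (A v) ∧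
      (A v).card = b ∧ ∀ α ∈ A v, ‖α‖ ^ 2 = (Ideal.absNorm v.asIdeal : ℝ) ^ n) ∧
    (∀ v, (3 : 𝓞 K) ∈ v.asIdeal → A v = 0) ∧
    ∀ s : ℂ, (n : ℝ) / 2 + 1 < s.re →
      HasProd (fun v : HeightOneSpectrum (𝓞 K) =>
        ((A v).map (fun α => (1 - α * (Ideal.absNorm v.asIdeal : ℂ) ^ (-s))⁻¹)).prod) (L s)

/-- the fields with `q ^ r` elements are extensions of degree `r` -/
lemma exists_alg (k : Type) [Field k] [Fintype k] (F : Type) [Field F] [Finite F] (r : ℕ)
    (h : Nat.card F = Fintype.card k ^ r) : ∃ _ : Algebra k F, Module.finrank k F = r := by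
  obtain ⟨p, hp⟩ := CharP.exists k
  have hpp : p.Prime := CharP.char_is_prime k p
  haveI : Fact p.Prime := ⟨hpp⟩
  obtain ⟨j, -, hj⟩ := FiniteField.card k p
  haveI : CharP F p := by
    obtain ⟨q, hq⟩ := CharP.exists F
    let _ : Fintype F := Fintype.ofFinite F
    have hqp : q.Prime := CharP.char_is_prime F q
    obtain ⟨i, -, hi⟩ := FiniteField.card F q
    rw [Nat.card_eq_fintype_card, hi, hj, ← pow_mul] at h
    have h1 : q ∣ p ^ ((j : ℕ) * r) := by
      rw [← h]
      exact dvd_pow_self q i.ne_zero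
    have h2 := (Nat.prime_dvd_prime_iff_eq hqp hpp).1 (hqp.dvd_of_dvd_pow h1)
    rwa [← h2]
  letI : Algebra (ZMod p) k := ZMod.algebra k p
  letI : Algebra (ZMod p) F := ZMod.algebra F p
  have h1 : Module.finrank (ZMod p) k = j := by
    have h5 := Module.natCard_eq_pow_finrank (K := ZMod p) (V := k)
    rw [Nat.card_eq_fintype_card, hj, Nat.card_zmod] at h5
    exact (Nat.pow_right_injective hpp.two_le h5).symm
  have h2 : Module.finrank (ZMod p) F = j * r := by
    have h5 := Module.natCard_eq_pow_finrank (K := ZMod p) (V := F)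
    rw [h, hj, Nat.card_zmod, ← pow_mul] at h5
    exact (Nat.pow_right_injective hpp.two_le h5).symm
  obtain ⟨f⟩ := FiniteField.nonempty_algHom_of_finrank_dvd (F := ZMod p) (K := k) (L := F) (by
    rw [h1, h2]
    exact Dvd.intro _ rfl)
  letI alg : Algebra k F := f.toRingHom.toAlgebra
  haveI : Module.Finite k F := Module.Finite.of_finite
  refine ⟨alg, ?_⟩
  have h5 := Module.natCard_eq_pow_finrank (K := k) (V := F)
  rw [h, Nat.card_eq_fintype_card] at h5
  exact (Nat.pow_right_injective Fintype.one_lt_card h5).symm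

lemma cone_ncard {m : ℕ} {F : Type} [Field F] [Finite F] :
    ((sols m F).ncard : ℂ) = (Nat.card (Cn fun _ : Fin m => (1 : F)) : ℂ) - 1 := by
  have h1 : Nat.card (Cn fun _ : Fin m => (1 : F)) =
      ({x : Fin m → F | ∑ i, (1 : F) * x i ^ 3 = 0}).ncard := by
    rw [← Nat.card_coe_set_eq]
    rfl
  have h2 : {x : Fin m → F | ∑ i, (1 : F) * x i ^ 3 = 0} = insert 0 (sols m F) := by
    ext x
    simp only [Set.mem_ofPred_eq, Set.mem_insert_iff, sols, one_mul]
    constructor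
    · intro h
      by_cases hx : x = 0
      · exact Or.inl hx
      · exact Or.inr ⟨hx, h⟩
    · rintro (rfl | h)
      · simp
      · exact h.2
  rw [h1, h2, Set.ncard_insert_of_notMem (by simp [sols]) (Set.toFinite _)]
  push_cast
  ring

/-- the two eigenvalues, each of them `N` times -/
noncomputable def eigs (N c : ℕ) (q β : ℂ) : Multiset ℂ :=
  N • ({q ^ c * β, q ^ c * (starRingEnd ℂ) β} : Multiset ℂ)

lemma eigs_card (N c : ℕ) (q β : ℂ) : (eigs N c q β).card = 2 * N := by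
  unfold eigs
  rw [Multiset.card_nsmul]
  simp [mul_comm]

lemma eigs_sum (N c : ℕ) (q β : ℂ) (r : ℕ) : ((eigs N c q β).map (fun α => α ^ r)).sum =
    N * ((q ^ c * β) ^ r + (q ^ c * (starRingEnd ℂ) β) ^ r) := by
  unfold eigs
  rw [Multiset.map_nsmul, Multiset.sum_nsmul]
  simp [mul_add]

lemma eigs_prod (N c : ℕ) (q β X : ℂ) : ((eigs N c q β).map (fun α => (1 - α * X)⁻¹)).prod =
    ((1 - q ^ c * β * X)⁻¹ * (1 - q ^ c * (starRingEnd ℂ) β * X)⁻¹) ^ N := by
  unfold eigs
  rw [Multiset.map_nsmul, Multiset.prod_nsmul]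
  simp

lemma eigs_mem {N c : ℕ} {q β α : ℂ} (h : α ∈ eigs N c q β) :
    α = q ^ c * β ∨ α = q ^ c * (starRingEnd ℂ) β := by
  unfold eigs at h
  have := Multiset.mem_of_mem_nsmul h
  simpa using this

lemma Dt_one {R : Type} [CommRing R] {m : ℕ} (T : Finset (Fin m)) :
    Dt (fun _ : Fin m => (1 : R)) T = 1 := by
  unfold Dt
  simp

/-- the eigenvalues over a finite field -/
theorem frob {k : Type} [Field k] [Fintype k] {β : k → ℂ} (hβ : IsBeta β) {c : ℕ} (hc : c ≤ 2) :
    IsFrob (2 * c + 1) (Fintype.card k)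
      (eigs ((2 * c + 3).choose c) c (Fintype.card k) (β 1)) := by
  intro F _ _ r hF
  obtain ⟨_, hr⟩ := exists_alg k F r hF
  have h1 := hβ.2.2 c hc (fun _ => 1) (fun _ => one_ne_zero) F
  have h2 : (fun _ : Fin (2 * c + 3) => algebraMap k F (1 : k)) = fun _ => (1 : F) := by
    funext i
    exact map_one _
  simp only [Dt_one, hr] at h1
  rw [h2] at h1
  have h4 := cone_ncard (m := 2 * c + 3) (F := F)
  rw [h1] at h4
  have hgeom : ((Nat.card F : ℂ) - 1) * ∑ i ∈ Finset.range (2 * c + 1 + 1), (Nat.card F : ℂ) ^ i =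
      (Nat.card F : ℂ) ^ (2 * c + 2) - 1 := by
    rw [mul_comm]
    exact geom_sum_mul _ _
  refine h4.trans ?_
  rw [eigs_sum, Finset.sum_const, Finset.card_powersetCard, Finset.card_univ, Fintype.card_fin,
    nsmul_eq_mul]
  linear_combination -hgeom

section places
variable {K : Type} [Field K] [NumberField K]

/-- the residue field -/
noncomputable def qe (v : HeightOneSpectrum (𝓞 K)) :
    (𝓞 K ⧸ v.asIdeal) ≃+* IsLocalRing.ResidueField (Ov v) := by
  have h : RingHom.ker (redMap v) = v.asIdeal := by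
    ext x
    rw [RingHom.mem_ker, redMap_eq_zero]
  exact (Ideal.quotEquivOfEq h.symm).trans
    (RingHom.quotientKerEquivOfSurjective (Pool.Agent.W189.NF.redMap_surjective v))

lemma NP_congr {A B : Type} [Field A] [Field B] (e : A ≃+* B) : NP A = NP B := by
  unfold NP
  refine Nat.card_congr (Equiv.subtypeEquiv (e.toEquiv.prodCongr e.toEquiv) fun P => ?_)
  show _ ↔ e P.2 ^ 2 + e P.2 = e P.1 ^ 3
  rw [← map_pow, ← map_add, ← map_pow, e.injective.eq_iff]

/-- the eigenvalues at a place not dividing three -/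
theorem exists_bv (v : HeightOneSpectrum (𝓞 K)) (h3 : (3 : 𝓞 K) ∉ v.asIdeal) :
    ∃ β : ℂ, β * (starRingEnd ℂ) β = nm v ∧
      ((aV (Pool.Agent.Y688.E27 K) v : ℤ) : ℂ) = β + (starRingEnd ℂ) β ∧
      ((eV (Pool.Agent.Y688.E27 K) v : ℤ) : ℂ) = nm v ∧
      ∀ c : ℕ, c ≤ 2 → IsFrob (2 * c + 1) (nm v)
        (eigs ((2 * c + 3).choose c) c (nm v) β) := by
  have hm : v.asIdeal.IsMaximal := v.isMaximal
  letI : Field (𝓞 K ⧸ v.asIdeal) := Ideal.Quotient.field v.asIdeal
  have hfin0 := finite_res v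
  have hfin : Finite (𝓞 K ⧸ v.asIdeal) := Finite.of_equiv _ (qe v).toEquiv.symm
  letI : Fintype (𝓞 K ⧸ v.asIdeal) := Fintype.ofFinite _
  have hcard : Fintype.card (𝓞 K ⧸ v.asIdeal) = nm v := by
    rw [← Nat.card_eq_fintype_card, Nat.card_congr (qe v).toEquiv]
    exact card_res v
  have h3' : (3 : 𝓞 K ⧸ v.asIdeal) ≠ 0 := by
    have h : Ideal.Quotient.mk v.asIdeal (3 : 𝓞 K) ≠ 0 := by
      rwa [Ne, Ideal.Quotient.eq_zero_iff_mem]
    rwa [map_ofNat] at h
  obtain ⟨β, hβ⟩ := exists_beta (𝓞 K ⧸ v.asIdeal) h3'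
  obtain ⟨b1, b2⟩ := hβ.2.1 1 one_ne_zero
  obtain ⟨l1, l2⟩ := aV_good v h3
  refine ⟨β 1, b1.trans (by rw [hcard]), ?_, ?_, fun c hc => ?_⟩
  · rw [l1, ← NP_congr (qe v)]
    push_cast
    have h5 : (NP (𝓞 K ⧸ v.asIdeal) : ℂ) = (Nat.card {p : (𝓞 K ⧸ v.asIdeal) × (𝓞 K ⧸ v.asIdeal) //
        p.2 ^ 2 + 1 * p.2 = p.1 ^ 3} : ℂ) := by
      unfold NP
      simp only [one_mul]
    rw [h5, b2, hcard]
    ring
  · rw [l2]
    push_cast
    rfl
  · rw [← hcard]
    exact frob hβ hc

/-- a minimal equation with `c₄ = 0` that does not have good reduction -/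
theorem loc_bad {R : Type} [CommRing R] [IsDomain R] [IsDiscreteValuationRing R] {L : Type}
    [Field L] [Algebra R L] [IsFractionRing R L] (W : WeierstrassCurve L)
    (hmin : W.IsMinimal R) (hc : W.c₄ = 0)
    (hΔ : valuation L (IsDiscreteValuationRing.maximalIdeal R) W.Δ < 1) :
    aLoc R W = 0 ∧ eLoc R W = 0 := by
  have key : ∀ C : WeierstrassCurve.VariableChange L,
      (C • W).IsMinimal R → ¬ (C • W).HasGoodReduction R ∧ ¬ (C • W).HasMultiplicativeReduction R := by
    intro C hC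
    constructor
    · intro hg
      have hint : (C • W).IsIntegral R := inferInstance
      have hint1 : W.IsIntegral R := inferInstance
      have h1 := hg.goodReduction
      have e1 : ((C • W).valuation_Δ_aux R : WithZero (Multiplicative ℤ)) = 1 := by
        rw [WeierstrassCurve.valuation_Δ_aux_eq_of_isIntegral, h1]
      have e2 : (((1 : WeierstrassCurve.VariableChange L) • W).valuation_Δ_aux R :
          WithZero (Multiplicative ℤ)) < 1 := by
        rw [one_smul, WeierstrassCurve.valuation_Δ_aux_eq_of_isIntegral]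
        exact hΔ
      have h2 := hmin.val_Δ_maximal.2 (j := C) hint (by
        show ((1 : WeierstrassCurve.VariableChange L) • W).valuation_Δ_aux R ≤
          (C • W).valuation_Δ_aux R
        rw [← Subtype.coe_le_coe, e1]
        exact e2.le)
      have h3 : ((C • W).valuation_Δ_aux R : WithZero (Multiplicative ℤ)) ≤
          ((1 : WeierstrassCurve.VariableChange L) • W).valuation_Δ_aux R := h2
      rw [e1] at h3
      exact absurd e2 (not_lt.2 h3)
    · intro hg
      have h1 := hg.multiplicativeReduction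
      rw [WeierstrassCurve.variableChange_c₄, hc, mul_zero, map_zero] at h1
      exact zero_ne_one h1
  have hk := key (W.exists_isMinimal R).choose (W.exists_isMinimal R).choose_spec
  have h1 : ¬ (W.minimal R).HasGoodReduction R := hk.1
  have h2 : ¬ (W.minimal R).HasMultiplicativeReduction R := hk.2
  have h3 : ¬ (W.minimal R).HasSplitMultiplicativeReduction R := fun h =>
    h2 h.toHasMultiplicativeReduction
  constructor
  · unfold aLoc
    rw [if_neg h1, if_neg h3, if_neg h2]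
  · unfold eLoc
    rw [if_neg h1]

/-- the places above three -/
theorem bad_of_minimal (v : HeightOneSpectrum (𝓞 K)) (h3 : (3 : 𝓞 K) ∈ v.asIdeal)
    (hmin : WeierstrassCurve.IsMinimal (v.adicCompletionIntegers K)
      ((Pool.Agent.Y688.E27 K).baseChange (v.adicCompletion K))) :
    aV (Pool.Agent.Y688.E27 K) v = 0 ∧ eV (Pool.Agent.Y688.E27 K) v = 0 := by
  have hb : (Pool.Agent.Y688.E27 K).baseChange (v.adicCompletion K) =
      Pool.Agent.Y688.E27 (v.adicCompletion K) := E27_map _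
  refine loc_bad (R := v.adicCompletionIntegers K) _ hmin ?_ ?_
  · rw [hb, E27_c₄]
  · rw [hb, E27_Δ, val_all]
    have hlt : v.valuation K 3 < 1 := by
      have h1 := (v.valuation_lt_one_iff_mem (K := K) (3 : 𝓞 K)).2 h3
      have e : algebraMap (𝓞 K) K (3 : 𝓞 K) = 3 := map_ofNat _ 3
      rw [← e]
      exact h1
    have h1 := Pool.Agent.H723R3.valued_algebraMap v (3 : K)
    rw [map_ofNat] at h1
    have h2 : (-27 : v.adicCompletion K) = -(3 ^ 3) := by norm_num
    rw [h2, Valuation.map_neg, map_pow, h1]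
    exact pow_lt_one' hlt (by norm_num)

end places

section main
variable {K : Type} [Field K] [NumberField K]

/-- **The `L`-function.** -/
theorem core (h : TwoPart K) {c : ℕ} (hc : c ≤ 2) :
    ∃ L : ℂ → ℂ, IsL K (2 * c + 1) (2 * (2 * c + 3).choose c) L ∧ AnalyticAt ℂ L (c + 1) ∧
      L (c + 1) ≠ 0 := by
  obtain ⟨Lf, m1, m2, m3, m4, -⟩ := h.analytic
  have hch : ∀ v : HeightOneSpectrum (𝓞 K), ∃ β : ℂ, (3 : 𝓞 K) ∉ v.asIdeal →
      β * (starRingEnd ℂ) β = nm v ∧
      ((aV (Pool.Agent.Y688.E27 K) v : ℤ) : ℂ) = β + (starRingEnd ℂ) β ∧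
      ((eV (Pool.Agent.Y688.E27 K) v : ℤ) : ℂ) = nm v ∧
      ∀ c : ℕ, c ≤ 2 → IsFrob (2 * c + 1) (nm v)
        (eigs ((2 * c + 3).choose c) c (nm v) β) := by
    intro v
    by_cases h3 : (3 : 𝓞 K) ∈ v.asIdeal
    · exact ⟨0, fun h => absurd h3 h⟩
    · obtain ⟨β, hβ⟩ := exists_bv v h3
      exact ⟨β, fun _ => hβ⟩
  choose β hβ using hch
  have hbad : ∀ v : HeightOneSpectrum (𝓞 K), (3 : 𝓞 K) ∈ v.asIdeal →
      aV (Pool.Agent.Y688.E27 K) v = 0 ∧ eV (Pool.Agent.Y688.E27 K) v = 0 :=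
    fun v hv => bad_of_minimal v hv (h.loc v).1
  have hbd : ∀ v : HeightOneSpectrum (𝓞 K),
      HBd (aV (Pool.Agent.Y688.E27 K) v) (eV (Pool.Agent.Y688.E27 K) v) (nm v) := by
    intro v
    by_cases h3 : (3 : 𝓞 K) ∈ v.asIdeal
    · exact Or.inl (hbad v h3)
    · obtain ⟨b1, b2, b3, -⟩ := hβ v h3
      exact Or.inr ⟨β v, b2, by rw [b3, b1], b1⟩
  set N := (2 * c + 3).choose c with hN
  let A : HeightOneSpectrum (𝓞 K) → Multiset ℂ := fun v =>
    if (3 : 𝓞 K) ∈ v.asIdeal then 0 else eigs N c (nm v) (β v)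
  have nm_ne : ∀ v : HeightOneSpectrum (𝓞 K), (nm v : ℂ) ≠ 0 := fun v => by
    have := two_le_nm v
    exact_mod_cast (by omega : nm v ≠ 0)
  refine ⟨fun s => Lf (s - c) ^ N, ⟨?_, A, fun v h3 => ?_, fun v h3 => ?_, fun s hs => ?_⟩, ?_, ?_⟩
  · intro s _
    have h1 : MeromorphicAt Lf (s - c) := m1 (s - c) (Set.mem_univ _)
    have h2 : MeromorphicAt (fun z : ℂ => Lf (z - c)) s := by
      exact h1.comp_analyticAt (f := Lf) (g := fun z : ℂ => z - (c : ℂ)) (by fun_prop)
    exact h2.pow N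
  · obtain ⟨b1, b2, b3, b4⟩ := hβ v h3
    have hA : A v = eigs N c (nm v) (β v) := if_neg h3
    rw [hA]
    refine ⟨b4 c hc, eigs_card _ _ _ _, fun α hα => ?_⟩
    have key : ∀ x : ℂ, x * (starRingEnd ℂ) x = nm v →
        ‖(nm v : ℂ) ^ c * x‖ ^ 2 = (nm v : ℝ) ^ (2 * c + 1) := by
      intro x hx
      have h1 : ‖x‖ ^ 2 = (nm v : ℝ) := by
        rw [Complex.sq_norm]
        rw [Complex.mul_conj] at hx
        exact_mod_cast hx
      rw [norm_mul, mul_pow, h1, norm_pow, Complex.norm_natCast]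
      ring
    rcases eigs_mem hα with rfl | rfl
    · exact key _ b1
    · refine key _ ?_
      rw [Complex.conj_conj, mul_comm]
      exact b1
  · exact if_pos h3
  · have hre : 3 / 2 < (s - (c : ℂ)).re := by
      rw [Complex.sub_re, Complex.natCast_re]
      push_cast at hs
      linarith
    obtain ⟨-, h1⟩ := LSeries_hasProd' (Pool.Agent.Y688.E27 K) hbd hre
    have h2 : Lf (s - c) = (Pool.Agent.Y688.E27 K).LSeries (s - c) := (m2 _ hre).2
    have h3 : HasProd (fun v : HeightOneSpectrum (𝓞 K) =>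
        ((1 - (aV (Pool.Agent.Y688.E27 K) v : ℂ) * (nm v : ℂ) ^ (-(s - c)) +
          (eV (Pool.Agent.Y688.E27 K) v : ℂ) * ((nm v : ℂ) ^ (-(s - c))) ^ 2)⁻¹) ^ N)
        (Lf (s - c) ^ N) := by
      rw [h2]
      have h4 := hasProd_prod (s := Finset.range N) (f := fun (_ : ℕ) (v : HeightOneSpectrum (𝓞 K)) =>
        (1 - (aV (Pool.Agent.Y688.E27 K) v : ℂ) * (nm v : ℂ) ^ (-(s - c)) +
          (eV (Pool.Agent.Y688.E27 K) v : ℂ) * ((nm v : ℂ) ^ (-(s - c))) ^ 2)⁻¹)
        (a := fun _ => (Pool.Agent.Y688.E27 K).LSeries (s - c)) (fun _ _ => h1)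
      simpa only [Finset.prod_const, Finset.card_range] using h4
    refine h3.congr_fun fun v => ?_
    show ((A v).map (fun α => (1 - α * (nm v : ℂ) ^ (-s))⁻¹)).prod = _
    have e : (nm v : ℂ) ^ (-(s - c)) = (nm v : ℂ) ^ c * (nm v : ℂ) ^ (-s) := by
      rw [show -(s - (c : ℂ)) = (c : ℂ) + -s by ring, Complex.cpow_add _ _ (nm_ne v),
        Complex.cpow_natCast]
    by_cases h3 : (3 : 𝓞 K) ∈ v.asIdeal
    · obtain ⟨x1, x2⟩ := hbad v h3
      have hA : A v = 0 := if_pos h3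
      rw [hA, x1, x2]
      simp
    · obtain ⟨b1, b2, b3, b4⟩ := hβ v h3
      have hA : A v = eigs N c (nm v) (β v) := if_neg h3
      rw [hA, eigs_prod, b2, b3, e, ← mul_inv]
      congr 2
      linear_combination ((nm v : ℂ) ^ c * (nm v : ℂ) ^ (-s)) ^ 2 * b1
  · have h1 : AnalyticAt ℂ Lf ((fun z : ℂ => z - (c : ℂ)) (c + 1)) := by
      have : (fun z : ℂ => z - (c : ℂ)) (c + 1) = 1 := by
        show (c : ℂ) + 1 - c = 1
        ring
      rw [this]
      exact m3
    have h2 : AnalyticAt ℂ (fun z : ℂ => z - (c : ℂ)) (c + 1) :=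
      analyticAt_id.sub analyticAt_const
    have h5 : AnalyticAt ℂ (fun z : ℂ => Lf (z - (c : ℂ))) (c + 1) :=
      AnalyticAt.comp (g := Lf) (f := fun z : ℂ => z - (c : ℂ)) (x := (c : ℂ) + 1) h1 h2
    exact h5.pow N
  · show Lf ((c : ℂ) + 1 - c) ^ N ≠ 0
    rw [show (c : ℂ) + 1 - c = 1 by ring]
    exact pow_ne_zero _ m4

end main

end Pool.Agent.L7h1.FC
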